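import Pool.Agent.Helper320.PCL.Fin

/-!
# Nonvanishing for the pairs which are images of products of open curves of large gonality

Let `U i = C i \ B i`, `1 ≤ i ≤ n`, be any smooth curves over `ℂ`: `C i` is smooth and projective, and
`B i` is a finite set of points, which may be empty. Let `γ i` be at most the gonality of `U i`, the
smallest degree of a nonconstant function on `C i` which vanishes at all points of `B i`, that is of a
finite map onto the affine line of an open subset of `U i` (of a map of `C i` onto the line if `B i` is
empty). For example, the gonality of `ℙ¹` minus `b ≥ 1` points is `b`, and it is at least `b` for all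
`U i` with `b` points in the boundary.

Let `(W, D)` be a smooth projective variety with a reduced divisor with normal crossings, and let
`U = U 1 × ... × U n → X = W \ D` be a proper surjective morphism which is finite over a general point;
it need not be a quotient by a group, and nothing is assumed on its ramification. (More generally, a
dominant rational map is sufficient such that a place of `ℂ(U)` with values in `ℤ` has a centre on `U`
if and only if its restriction to `ℂ(W)` has a centre on `X`.)

Let `d i` be the degree over `X` of the image of `U` in `X × U i`, that is the number of points of
`U i` which correspond to a general point of `X`. Let `I` be a set of factors with `d i < γ i` for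
`i ∈ I` (for example `I = ∅`), and let `e` be the degree of `U` over its image in
`X × ∏ (i ∈ I) U i` (so `e` is the degree of `U → X` for `I = ∅`). Suppose that at most one factor is
not in `I`, or `e + 3 ≤ γ i + γ j` for all `i ≠ j` not in `I`, and `e + 1 ≤ 2 γ i` for all `i` not in
`I`.

Then these are equivalent: `K_W + D` has no section; `κ(K_W + D) = -∞`; `K_W + D` is not
pseudo-effective; `W \ D` is `A¹`-uniruled. In particular, if `K_W + D` is nef, or pseudo-effective, then
it has a section. Moreover, if `K_W + D` has no section and no `U i`, `i ∉ I`, is the line or the affine
line, then there is a factor `i` not in `I` with `γ i ≤ e` such that the image of `U` in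
`X × ∏ (i ∈ I) U i` dominates all other factors, compatibly with `U`.

For example: if all `U i` have gonality at least `γ`, for instance at least `γ` points in the boundary,
then the equivalences hold for all images `X` of `U` of degree at most `2 γ - 3`; if all `U i` but one
have gonality greater than `d i` then they hold for all degrees, and all curves as the last factor; and
`K_W + D` has a section if `d i < γ i` for all `i`.

Proof. Let `L = ℂ(W)`. The conjugates over `L` of the generic point of `U` are points with coordinates
in the `C i`. The traces of the products of logarithmic differentials of the `(C i, B i)` are sections of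
`K_W + D`. If they vanish then this is a linear relation between the evaluations of these products at the
conjugates. By the theorem of Riemann-Roch the logarithmic differentials separate a point of `C i` from
`γ i - 2` other points not in `B i`; this holds over all extensions of the field of constants, by
specialisation. So a combinatorial argument shows that all factors but one, `i`, are dominated by the
image `W'` of `U` in `X × ∏ (i ∈ I) U i`, and the traces to `W'` vanish. The geometric generic fibre of
`W'` over the product of the other factors is a curve whose regular differentials come from `C i` and
have trace zero; so it is rational. If two of its points were in the boundary, then the function with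
divisor the difference of these points would be a function on `C i` times a constant, since its zeros and
poles on `C i` are in `B i`, and its logarithmic derivative would be a logarithmic differential of
`(C i, B i)` with nonzero trace. So the fibre contains the affine line.

The function-field language of the starting repository is used: `L = ℂ(W)`, and `Bd` is the set of the
places of `L` without centre on `W \ D`; a form (`IsPluri 1`) on a variety of dimension `n` is a function
of `n` rational vector fields; `LogSec ℂ L n 1 Bd ω` says that `ω` is a section of `K_W + D`: a form with
at most logarithmic poles at all prime divisors, and regular at those which are not in `Bd`;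
`KodGe ℂ L n Bd 0` says that `κ(K_W + D) ≥ 0`, `Psef ℂ L n Bd` that `K_W + D` is pseudo-effective
(`Pool/Agent/W602/GT`), `IsA1Uniruled ℂ L n Bd` that `W \ D` is `A¹`-uniruled
(`Pool/Agent/W619/PL/LDefs.lean`), and `Over Q P e` that the place `Q` lies over the place `P`, with
ramification index `e ≥ 1`.
-/

set_option autoImplicit false
set_option linter.overlappingInstances false

open FF Pool.Agent.W602.GT
open Pool.Agent.W619.PL (IsA1Uniruled)

namespace Pool.Agent.Helper320.Old.LogGenus

/-- `K_W + D` has no section: the only canonical form with at most logarithmic poles which is regular
at the prime divisors that are not in the boundary is `0`. -/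
def LogGenusZero (L : Type) [Field L] [Algebra ℂ L] (n : ℕ) (Bd : Place ℂ L → Prop) : Prop :=
  ∀ ω : (Fin n → Derivation ℂ L L) → L, LogSec ℂ L n 1 Bd ω → ∀ D, ω D = 0

/-- `F` is the function field of a curve. -/
def IsCurveField (F : Type) [Field F] [Algebra ℂ F] : Prop :=
  Algebra.EssFiniteType ℂ F ∧ Algebra.trdeg ℂ F = 1

/-- The gonality of the open curve with the function field `F` and the boundary `B` is at least `γ`:
all nonconstant functions which vanish at the points of `B` have degree at least `γ`. -/
def GonalityGe (F : Type) [Field F] [Algebra ℂ F] (B : Finset (Place ℂ F)) (γ : ℕ) : Prop :=
  ∀ t : F, Transcendental ℂ t → (∀ P ∈ B, 0 < P.ord t) →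
    γ ≤ Module.finrank (IntermediateField.adjoin ℂ {t}) F

section

variable {K : Type} [Field K] [Algebra ℂ K] {n : ℕ}

/-- The boundary of the product of the open curves: the places which lie over a boundary point of one
of the factors, that is the places without centre on `U`. -/
def Boundary (F : Fin n → IntermediateField ℂ K) (B : ∀ i, Finset (Place ℂ (F i)))
    (Q : Place ℂ K) : Prop :=
  ∃ i, ∃ p ∈ B i, ∃ e : ℕ, Over Q p e

variable (L : Type) [Field L] [Algebra L K]

/-- The number `d` of the points of the curve with the function field `F` which correspond to a
general point of `X`: the degree over `L` of the compositum of `L` and `F`. -/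
noncomputable def factorDegree (F : IntermediateField ℂ K) : ℕ :=
  Module.finrank L (IntermediateField.adjoin L (F : Set K))

/-- The function field of the image of `U` in the product of `X` and the curves with the function
fields `F i`, `i ∈ I`. -/
def joint (F : Fin n → IntermediateField ℂ K) (I : Finset (Fin n)) : IntermediateField L K :=
  IntermediateField.adjoin L (⋃ i ∈ I, (F i : Set K))

/-- The degree `e` of `U` over this image. -/
noncomputable def jointDegree (F : Fin n → IntermediateField ℂ K) (I : Finset (Fin n)) : ℕ :=
  Module.finrank (joint L F I) K

end

/-- **Images of products of open curves of large gonality.** Let `U` be the product of `n ≥ 1` open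
curves with the function fields `F i`, which are subfields of the function field `K` of `U`, and the
boundaries `B i`, of gonality at least `γ i`, and let `L` be a subfield of `K` of finite index, the
function field of a smooth variety `X = W \ D` with boundary `Bd`, such that a place of `K` is in the
boundary of `U` if and only if the place of `L` below it is in `Bd`. Let `I` be a set of factors with
`d i < γ i` for `i ∈ I`, such that for the degree `e` of `U` over its image in `X × ∏ (i ∈ I) U i` the
following holds: `e + 3 ≤ γ i + γ j` for all `i ≠ j` not in `I`, and `e + 1 ≤ 2 γ i` for all `i` not in
`I`, or `I` contains all factors but at most one. Then `K_W + D` has no section if and only if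
`κ(K_W + D) = -∞`, if and only if `K_W + D` is not pseudo-effective, if and only if `X` is
`A¹`-uniruled. If moreover `γ i ≥ 2` for `i` not in `I` and `K_W + D` has no section, then there is `i`
not in `I` with `γ i ≤ e` such that the function fields of all other factors are contained in that of
the image of `U` in `X × ∏ (i ∈ I) U i`. -/
theorem result {n : ℕ} (hn : 1 ≤ n) {K : Type} [Field K] [Algebra ℂ K]
    (hK : Algebra.trdeg ℂ K = n) (F : Fin n → IntermediateField ℂ K)
    (hF : ∀ i, IsCurveField (F i)) (hsup : ⨆ i, F i = ⊤) (B : ∀ i, Finset (Place ℂ (F i)))
    (γ : Fin n → ℕ) (hγ : ∀ i, GonalityGe (F i) (B i) (γ i))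
    (L : Type) [Field L] [Algebra ℂ L] [Algebra L K] [IsScalarTower ℂ L K]
    [FiniteDimensional L K] (Bd : Place ℂ L → Prop)
    (hBd : ∀ (P : Place ℂ L) (Q : Place ℂ K) (e : ℕ), Over Q P e → (Bd P ↔ Boundary F B Q))
    (I : Finset (Fin n)) (hI : ∀ i ∈ I, factorDegree L (F i) < γ i)
    (h1 : ∀ i j, i ∉ I → j ∉ I → i ≠ j → jointDegree L F I + 3 ≤ γ i + γ j)
    (h2 : (∀ i j, i ∉ I → j ∉ I → i = j) ∨ ∀ i, i ∉ I → jointDegree L F I + 1 ≤ 2 * γ i) :
    [LogGenusZero L n Bd, ¬ KodGe ℂ L n Bd 0, ¬ Psef ℂ L n Bd, IsA1Uniruled ℂ L n Bd].TFAE ∧
    ((∀ i, i ∉ I → 2 ≤ γ i) → LogGenusZero L n Bd → ∃ i, i ∉ I ∧ γ i ≤ jointDegree L F I ∧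
      ∀ j, j ≠ i → ∀ z ∈ F j, z ∈ joint L F I) :=
  Pool.Agent.Helper320.PCL.fin_genus hn hK F (fun i => ⟨(hF i).1, (hF i).2⟩) B hsup γ hγ L Bd hBd I
    hI h1 h2

end Pool.Agent.Helper320.Old.LogGenus
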