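import Pool.Agent.Helper320.PCL.Fin

/-!
# Weak abundance for the pairs which are images of products of open curves of large gonality

Let `U i = C i \ B i`, `1 ≤ i ≤ n`, be any smooth curves over `ℂ`: `C i` is smooth and projective, and
`B i` is a finite set of points, which may be empty. Let `γ i` be at most the gonality of `U i`, the
smallest degree of a nonconstant function on `C i` which vanishes at all points of `B i`, that is of a
finite map onto the affine line of an open subset of `U i` (of a map of `C i` onto the line if `B i` is
empty). It is at least the number of the points of `B i`.

Let `(W, D)` be a smooth projective variety with a reduced divisor with normal crossings, and let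
`U = U 1 × ... × U n → X = W \ D` be a proper surjective morphism which is finite over a general point;
it need not be a quotient by a group, and nothing is assumed on its ramification. (More generally, a
dominant rational map is sufficient such that a place of `ℂ(U)` with values in `ℤ` has a centre on `U`
if and only if its restriction to `ℂ(W)` has a centre on `X`.)

Let `d i` be the degree over `X` of the image of `U` in `X × U i`, that is the number of points of
`U i` which correspond to a general point of `X`. Let `I` be a set of factors with `2 d i < γ i` for
`i ∈ I`, and let `e` be the degree of `U` over its image in `X × ∏ (i ∈ I) U i`. Suppose that at most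
one factor is not in `I` (and then this factor may be any curve), or `e + 3 ≤ γ i + γ j` for all
`i ≠ j` not in `I`, and `e + 1 ≤ 2 γ i` for all `i` not in `I`.

Then `X` is `A¹`-uniruled and `K_W + D` is not pseudo-effective, so `κ(K_W + D) = ν(K_W + D) = -∞`, or
`κ(K_W + D) ≥ |I|`. In particular `X` is of log general type if `2 d i < γ i` for all `i`. If
`2 d i < γ i` for all `i` but one then `κ(K_W + D) = ν(K_W + D)`, since `ν = n` if and only if
`κ = n`. More generally `κ(K_W + D) = ν(K_W + D)` if at most three factors are not in `I`: the general
fibre of the Iitaka fibration has dimension at most `3` and Kodaira dimension `0`, so `ν = 0` on it by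
abundance for log canonical threefolds (Keel, Matsuki, McKernan), and then `κ = ν` (Nakayama, Lehmann).
(These remarks on `ν` are not part of the Lean statement.)

Proof. The traces of the products `c 1 ... c n` of logarithmic differentials `c i` of the `(C i, B i)`
are sections of `K_W + D`. If their ratios do not generate a field of transcendence degree at least
`|I|` then there is a vector field on `W` which kills these ratios, but not all functions on the
`C i`, `i ∈ I`. This gives a linear relation between the values and the derivatives of the products of
logarithmic differentials at the conjugates of the generic point of `U`. By the theorem of Riemann-Roch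
the logarithmic differentials of `(C i, B i)` separate a point to the first order from `d i - 1` points
to the second order, if `2 d i < γ i`; this holds over all extensions of the field of constants, by
specialisation. So the relation gives one without derivatives between the conjugates over the image `W'`
of `U` in `X × ∏ (i ∈ I) U i`, and then the logarithmic genus of `W'` is zero, and `W'` and `X` are
`A¹`-uniruled as in `MP_bc213e_ag.ImagesOfOpenCurveProducts`.

The function-field language of the starting repository is used: `L = ℂ(W)`, and `Bd` is the set of the
places of `L` without centre on `W \ D`; a form (`IsPluri N`) on a variety of dimension `n` is a function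
of `n` rational vector fields. `KodGe ℂ L n Bd h` says that `κ(K_W + D) ≥ h`: there are sections of
`N (K_W + D)` (`LogSec`: forms with at most logarithmic poles at all prime divisors, and regular at
those which are not in `Bd`) whose ratios contain `h` algebraically independent functions.
`Psef ℂ L n Bd` says that `K_W + D` is pseudo-effective (`Pool/Agent/W602/GT`), and
`IsA1Uniruled ℂ L n Bd` that `W \ D` is `A¹`-uniruled (`Pool/Agent/W619/PL/LDefs.lean`).
`Over Q P e` says that the place `Q` lies over the place `P`, with ramification index `e ≥ 1`.
-/

set_option autoImplicit false
set_option linter.overlappingInstances false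

open FF Pool.Agent.W602.GT
open Pool.Agent.W619.PL (IsA1Uniruled)

namespace Pool.Agent.Helper320.Old.LogKod

/-- `F` is the function field of a curve. -/
def IsCurveField (F : Type) [Field F] [Algebra ℂ F] : Prop :=
  Algebra.EssFiniteType ℂ F ∧ Algebra.trdeg ℂ F = 1

/-- The gonality of the open curve with the function field `F` and the boundary `B` is at least `γ`:
all nonconstant functions which vanish at the points of `B` have degree at least `γ`. -/
def GonalityGe (F : Type) [Field F] [Algebra ℂ F] (B : Finset (Place ℂ F)) (γ : ℕ) : Prop :=
  ∀ t : F, Transcendental ℂ t → (∀ P ∈ B, 0 < P.ord t) →
    γ ≤ Module.finrank (IntermediateField.adjoin ℂ {t}) F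

section

variable {K : Type} [Field K] [Algebra ℂ K] {n : ℕ}

/-- The boundary of the product of the open curves: the places which lie over a boundary point of one
of the factors, that is the places without centre on `U`. -/
def Boundary (F : Fin n → IntermediateField ℂ K) (B : ∀ i, Finset (Place ℂ (F i)))
    (Q : Place ℂ K) : Prop :=
  ∃ i, ∃ p ∈ B i, ∃ e : ℕ, Over Q p e

variable (L : Type) [Field L] [Algebra L K]

/-- The number `d` of the points of the curve with the function field `F` which correspond to a
general point of `X`: the degree over `L` of the compositum of `L` and `F`. -/
noncomputable def factorDegree (F : IntermediateField ℂ K) : ℕ :=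
  Module.finrank L (IntermediateField.adjoin L (F : Set K))

/-- The function field of the image of `U` in the product of `X` and the curves with the function
fields `F i`, `i ∈ I`. -/
def joint (F : Fin n → IntermediateField ℂ K) (I : Finset (Fin n)) : IntermediateField L K :=
  IntermediateField.adjoin L (⋃ i ∈ I, (F i : Set K))

/-- The degree `e` of `U` over this image. -/
noncomputable def jointDegree (F : Fin n → IntermediateField ℂ K) (I : Finset (Fin n)) : ℕ :=
  Module.finrank (joint L F I) K

end

/-- **Images of products of open curves of large gonality.** Let `U` be the product of `n ≥ 1` open
curves with the function fields `F i`, which are subfields of the function field `K` of `U`, and the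
boundaries `B i`, of gonality at least `γ i`, and let `L` be a subfield of `K` of finite index, the
function field of a smooth variety `X = W \ D` with boundary `Bd`, such that a place of `K` is in the
boundary of `U` if and only if the place of `L` below it is in `Bd`. Let `I` be a set of factors with
`2 d i < γ i` for `i ∈ I`, such that for the degree `e` of `U` over its image in `X × ∏ (i ∈ I) U i`
the following holds: `e + 3 ≤ γ i + γ j` for all `i ≠ j` not in `I`, and `e + 1 ≤ 2 γ i` for all `i` not
in `I`, or `I` contains all factors but at most one. Then `X` is `A¹`-uniruled and `K_W + D` is not
pseudo-effective, or `κ(K_W + D) ≥ |I|`. -/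
theorem result {n : ℕ} (hn : 1 ≤ n) {K : Type} [Field K] [Algebra ℂ K]
    (hK : Algebra.trdeg ℂ K = n) (F : Fin n → IntermediateField ℂ K)
    (hF : ∀ i, IsCurveField (F i)) (hsup : ⨆ i, F i = ⊤) (B : ∀ i, Finset (Place ℂ (F i)))
    (γ : Fin n → ℕ) (hγ : ∀ i, GonalityGe (F i) (B i) (γ i))
    (L : Type) [Field L] [Algebra ℂ L] [Algebra L K] [IsScalarTower ℂ L K]
    [FiniteDimensional L K] (Bd : Place ℂ L → Prop)
    (hBd : ∀ (P : Place ℂ L) (Q : Place ℂ K) (e : ℕ), Over Q P e → (Bd P ↔ Boundary F B Q))
    (I : Finset (Fin n)) (hI : ∀ i ∈ I, 2 * factorDegree L (F i) < γ i)
    (h1 : ∀ i j, i ∉ I → j ∉ I → i ≠ j → jointDegree L F I + 3 ≤ γ i + γ j)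
    (h2 : (∀ i j, i ∉ I → j ∉ I → i = j) ∨ ∀ i, i ∉ I → jointDegree L F I + 1 ≤ 2 * γ i) :
    (IsA1Uniruled ℂ L n Bd ∧ ¬ Psef ℂ L n Bd) ∨ KodGe ℂ L n Bd I.card :=
  Pool.Agent.Helper320.PCL.fin_kod hn hK F (fun i => ⟨(hF i).1, (hF i).2⟩) B hsup γ hγ L Bd hBd I
    hI h1 h2

end Pool.Agent.Helper320.Old.LogKod
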